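import Pool.Agent.H3.PS.Stm

/-!
Part PU of the crew PS (MP_40d30a_pr): upper tail of the Poisson law, in the mean.
-/

set_option autoImplicit false

namespace Pool.Agent.H85.PS

open MeasureTheory ProbabilityTheory Filter Topology
open Pool.Agent.Helper581.Sand Pool.Agent.H3.PS
open scoped Nat

lemma hasSum_pw_exp (l : NNReal) (θ : ℝ) :
    HasSum (fun k : ℕ => pw l k * Real.exp (θ * k)) (Real.exp (l * (Real.exp θ - 1))) := by
  have h := (NormedSpace.expSeries_div_hasSum_exp ((l:ℝ) * Real.exp θ)).mul_left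
    (Real.exp (-(l:ℝ)))
  rw [← Real.exp_eq_exp_ℝ, ← Real.exp_add] at h
  have e : -(l:ℝ) + l * Real.exp θ = l * (Real.exp θ - 1) := by ring
  rw [e] at h
  refine h.congr_fun ?_ |> fun h => h
  intro k
  unfold pw
  rw [mul_pow, mul_comm θ, Real.exp_nat_mul]
  ring

lemma max_le_exp {θ : ℝ} (hθ : 0 < θ) (x : ℝ) : max 0 x ≤ Real.exp (θ * x) / θ := by
  rw [le_div_iff₀ hθ]
  have h1 := Real.add_one_le_exp (θ * x)
  rcases le_total 0 x with h | h
  · rw [max_eq_right h]
    linarith
  · rw [max_eq_left h, zero_mul]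
    exact (Real.exp_pos _).le

theorem PU : S_PU := by
  intro ε hε hε1 d l hl
  set a : ℝ := (1 - ε / 2) * d with ha
  set θ : ℝ := ε / 4 with hθ
  have hθ0 : 0 < θ := by positivity
  have hs := (hasSum_pw_exp l θ).mul_right (Real.exp (-(θ * a)) / θ)
  have hle : ∀ k : ℕ, pw l k * max 0 ((k : ℝ) - a) ≤
      pw l k * Real.exp (θ * k) * (Real.exp (-(θ * a)) / θ) := by
    intro k
    have h1 := max_le_exp hθ0 ((k : ℝ) - a)
    have h2 : Real.exp (θ * ((k : ℝ) - a)) = Real.exp (θ * k) * Real.exp (-(θ * a)) := by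
      rw [← Real.exp_add]
      congr 1
      ring
    rw [h2] at h1
    calc pw l k * max 0 ((k : ℝ) - a) ≤ pw l k * (Real.exp (θ * k) * Real.exp (-(θ * a)) / θ) :=
          mul_le_mul_of_nonneg_left h1 (pw_nonneg l.coe_nonneg k)
      _ = _ := by ring
  have hnn : ∀ k : ℕ, 0 ≤ pw l k * max 0 ((k : ℝ) - a) := fun k =>
    mul_nonneg (pw_nonneg l.coe_nonneg k) (le_max_left _ _)
  have hsum : Summable (fun k : ℕ => pw l k * max 0 ((k : ℝ) - a)) :=
    Summable.of_nonneg_of_le hnn hle hs.summable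
  constructor
  · rw [integrable_poissonMeasure_iff]
    refine hsum.congr fun k => ?_
    unfold pw
    rw [Real.norm_of_nonneg (le_max_left _ _)]
  · rw [integral_poissonMeasure]
    have h1 : (∑' k : ℕ, pw l k * max 0 ((k : ℝ) - a)) ≤
        Real.exp (l * (Real.exp θ - 1)) * (Real.exp (-(θ * a)) / θ) := by
      rw [← hs.tsum_eq]
      exact hsum.tsum_le_tsum hle hs.summable
    have h2 : Real.exp (l * (Real.exp θ - 1)) * (Real.exp (-(θ * a)) / θ) ≤
        4 / ε * Real.exp (-(ε ^ 2 * d / 16)) := by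
      have e1 : Real.exp (l * (Real.exp θ - 1)) * (Real.exp (-(θ * a)) / θ) =
          4 / ε * Real.exp (l * (Real.exp θ - 1) + -(θ * a)) := by
        rw [Real.exp_add, hθ]
        field_simp
      rw [e1]
      refine mul_le_mul_of_nonneg_left (Real.exp_le_exp.2 ?_) (by positivity)
      have h3 : Real.exp θ ≤ 1 + θ + θ ^ 2 := by
        have := Real.abs_exp_sub_one_sub_id_le (x := θ) (by rw [abs_of_pos hθ0]; linarith)
        have := (abs_le.1 this).2
        linarith
      have h4 : (l : ℝ) * (Real.exp θ - 1) ≤ ((1 - ε) * d) * (θ + θ ^ 2) := by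
        have h5 : Real.exp θ - 1 ≤ θ + θ ^ 2 := by linarith
        have h6 : 0 ≤ θ + θ ^ 2 := by positivity
        calc (l : ℝ) * (Real.exp θ - 1) ≤ l * (θ + θ ^ 2) :=
              mul_le_mul_of_nonneg_left h5 l.coe_nonneg
          _ ≤ ((1 - ε) * d) * (θ + θ ^ 2) := mul_le_mul_of_nonneg_right hl h6
      have hd : (0:ℝ) ≤ d := Nat.cast_nonneg d
      have h7 : ((1 - ε) * d) * (θ + θ ^ 2) - θ * a ≤ -(ε ^ 2 * d / 16) := by
        rw [ha, hθ]
        have : ((1 - ε) * d) * (ε / 4 + (ε / 4) ^ 2) - ε / 4 * ((1 - ε / 2) * d) =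
            -(ε ^ 2 * d / 16) - ε ^ 3 * d / 16 := by ring
        rw [this]
        have : 0 ≤ ε ^ 3 * d / 16 := by positivity
        linarith
      linarith
    refine le_trans (le_of_eq ?_) (h1.trans h2)
    refine tsum_congr fun k => ?_
    unfold pw
    simp

end Pool.Agent.H85.PS
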